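import Pool.Agent.X180.Tow.Sys
import Pool.Agent.X180.Abn.Sys1
import Pool.Agent.Y191.LcRam

/-!
# Good minimal models for two step fibrations: moving arrangements over families of covers of
constant varieties of general type, over highly ramified linear systems

Let `X` be a projective variety with canonical singularities, and `X ⇢ W ⇢ Y` dominant rational maps,
where `W` is a variety of dimension `d + e` and `Y`, of dimension `d ≥ 1`, is the image of the rational
map of a linear system `|V|` on `X`, without fixed components, of dimension `n`. Suppose: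

* (the base) `D i` (`i < q`) are members of `|V|` which span `V`, in arbitrary position, such that
  `V` is not a direct sum of two nonzero subspaces which together contain all the `D i`; and at every
  prime divisor `P` of `X` which is a component of some `D i` the multiplicities of `P` in two members
  `D i`, `D i'` differ by at least `t`, where `t > (n + 2) (n - d + 1) (n - d + 2) / 2`, or only
  `t > (n + 1) (n - d + 1) (n - d + 2) / 2` if there are `n + 3` different members `D i`;
* (the fibres of `W` over `Y`) after a generically finite base change `Y' → Y` the variety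
  `W' = W ×_Y Y'` has a generically finite rational map to `Y' × F`, where `F` is a smooth projective
  variety of general type of dimension `e`. So the fibres of `W` over `Y` are any covers of `F`, for
  instance with branch divisors which move;
* (the fibres of `X` over `W`) there is a correspondence between `X` and a relative product of
  projective spaces: a variety `X'` with a generically finite map `X' ⇢ X` (any finite extension `K'`
  of the function field `K`, ramified anywhere) and a generically finite map over `W` of `X'` to
  `W'' × P^{r_1} × ... × P^{r_c}`, `r_j ≥ 1`, `W''` finite over `W`, and in each `P^{r_j}` there are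
  any hyperplanes `A j i = 0`, in any position, which move with the point of `W''`, with weights
  `w j i` in `[0, 1]` such that the arrangement is log canonical: the sum of the weights of
  hyperplanes with a common point is at most the codimension of their intersection. If `Q` is a
  place of `K'` over a prime divisor `P` of `X` which dominates `W`, with ramification index `ε`, and
  `e j i` are the multiplicities of the hyperplanes at `Q`, not all zero, then `ε` is at most
  `∑ (mx_j - ∑ w j i e j i)`, where `mx_j` is the greatest sum of `r_j + 1` of the `e j i` whose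
  hyperplanes have no common point (`ε = 1`, if all `e j i` are zero); and if `Q` is a place of `K'`
  over a prime divisor of `P^{r_1} × ... × P^{r_c}` over `W`, with ramification index `ρ`, and with
  ramification index `ε` over `K`, then `ρ - ε ≤ ∑ w j i e j i`.

Then `κ(X) = ν(X)`: `K_X` is pseudo-effective if and only if `∑ i, w j i ≥ r_j + 1` for all `j`; then
`κ(X) = ν(X) = dim W + l`, where `l` is the sum of the `r_j` with `∑ i, w j i > r_j + 1`; otherwise
`κ(X) = ν(X) = -∞`. By the known equivalence of `κ = ν` with the existence of good minimal models, `X`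
is birational to a minimal variety whose canonical divisor is semiample if all
`∑ i, w j i ≥ r_j + 1`, and to a Mori fibre space otherwise; the first case is new if some
`∑ i, w j i` is equal to `r_j + 1`, so that `K_X` is not big. For instance the fibres of `X` over `W`
may be any products of elliptic curves, or covers and quotients of abelian or Calabi-Yau type, or of
covers of projective spaces of any Kodaira dimension, with any variation over `W`.

The language and the definitions of `Pool.Agent.Y172` are used: `X` is given by the homogeneous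
coordinates `y` of its generic point, with values in the function field `K` of `X`; the prime divisors
of `X` are places `P` of `K`, `P.ord` is the order along `P`. If `a` is the minimum of the orders at
`P` of the members of `V` then the multiplicity of `P` in the divisor given by `f ∈ V` is
`P.ord f - a`.

Proof: the forms on `W` along the fibres over `Y` are the norms of the pull backs of the pluricanonical
forms of `F`; pulled back to `X` they are multiplied with the forms of `X` along the fibres over `W`,
which are the norms of products of determinants of logarithmic derivatives of the linear forms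
(`Pool.Agent.Y191.lc_low`). The products are estimated with adapted regular vector fields
(`Pool.Agent.X180.Tow`), and are multiplied by generalised Wronskians of `V`
(`Pool.Agent.TH585.SV.lin_fib`). For the upper bound, the sections of `m K_X + A` are pulled back to
`X'`; their traces are polynomials of bounded degree in the coordinates of the factors with
`∑ i, w j i = r_j + 1` (`Pool.Agent.Y191.lc_ab`).
-/

set_option autoImplicit false

open FF Pool.Agent.W602.GT Pool.Agent.Y172 Pool.Agent.Y191

namespace Pool.Agent.Results.MP_fa3f7f_ag.ConstantTimesArrangement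

section

variable {K : Type} [Field K] [Algebra ℂ K] {N : ℕ}

/-- `X` is a projective variety of dimension `n` with canonical singularities. -/
def IsCanonicalVariety (y : Fin (N + 1) → K) (n : ℕ) : Prop :=
  NormalModel y ∧ Algebra.trdeg ℂ K = n ∧ Canonical y n

/-- The function field of the image of the rational map which is given by the linear system `V`: the
field generated by the quotients of the members. -/
noncomputable def ImageField (V : Submodule ℂ K) : IntermediateField ℂ K :=
  IntermediateField.adjoin ℂ {y : K | ∃ f ∈ V, ∃ g ∈ V, y = f / g}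

/-- `V` is not the direct sum of two nonzero subspaces which together contain all the `φ i`. -/
def Indecomposable {q : ℕ} (V : Submodule ℂ K) (φ : Fin q → K) : Prop :=
  ∀ V₁ V₂ : Submodule ℂ K, V₁ ⊔ V₂ = V → V₁ ⊓ V₂ = ⊥ → (∀ i, φ i ∈ V₁ ∨ φ i ∈ V₂) →
    V₁ = ⊥ ∨ V₂ = ⊥

/-- There are `r` members `φ i` of which no two are proportional. -/
def Different (r : ℕ) {q : ℕ} (φ : Fin q → K) : Prop :=
  ∃ τ : Fin r → Fin q, ∀ i j, i ≠ j → ∀ t : ℂ, φ (τ i) ≠ t • φ (τ j)

/-- The condition on the multiplicities: if the prime divisor `P` of `X` is a component of one of the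
divisors `D i` (the order of `φ i` at `P` is not the minimum `a` of the orders of the members of `V`),
then for some members `D i`, `D i'` the difference of the multiplicities of `P` is at least `t`. -/
def Multiplicities (y : Fin (N + 1) → K) {q : ℕ} (V : Submodule ℂ K) (φ : Fin q → K) (t : ℝ) :
    Prop :=
  ∀ P : Place ℂ K, IsPrimeDivisor y P → ∀ a : ℤ, (∀ f ∈ V, f = 0 ∨ a ≤ P.ord f) →
    (∃ f ∈ V, f ≠ 0 ∧ P.ord f = a) → (∃ i, P.ord (φ i) ≠ a) →
    ∃ i i', t ≤ ((P.ord (φ i) - P.ord (φ i') : ℤ) : ℝ)

/-- The subfield `L` of `K` as a subfield of `E`, if `L` is contained in `E`. -/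
noncomputable def below (E L : IntermediateField ℂ K) : IntermediateField ℂ E := L.comap E.val

/-- Let `E` and `L` be the function fields of `W` and `Y`. After a generically finite base change
`Y' → Y` the variety `W' = W ×_Y Y'` has a generically finite rational map to `Y' × F`, where `F` is a
smooth projective variety of general type of dimension `e`: there is an extension `E'` of `E`, the
function field of `W'`, generated by an element `α` which is algebraic over `L`, and a subfield `M` of
`E'`, the function field of `F`, such that `E'` is algebraic over the field generated by `M` and the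
elements which are algebraic over `L`. `KodGe ℂ M e (fun _ => False) e`: the Kodaira dimension of `F`
is at least `e`. -/
def DominatesConstant (E L : IntermediateField ℂ K) (e : ℕ) : Prop :=
  ∃ (E' : Type) (_ : Field E') (_ : Algebra ℂ E') (_ : Algebra E E') (_ : IsScalarTower ℂ E E')
    (α : E') (M : IntermediateField ℂ E'),
    IsAlgebraic (below E L) α ∧ IntermediateField.adjoin E {α} = ⊤ ∧
    Algebra.EssFiniteType ℂ M ∧ Algebra.trdeg ℂ M = e ∧ KodGe ℂ M e (fun _ => False) e ∧
    ∀ z : E', IsAlgebraic (IntermediateField.adjoin ℂ ({a : E' | IsAlgebraic (below E L) a} ∪ M)) z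

/-- There is a finite extension `K'` of `K`, and the `u ⟨j, k⟩` are the affine coordinates of a
generically finite map, over the variety with the function field `E`, of a variety with the function
field `K'` to a product of projective spaces of dimensions `r j ≥ 1`; `A j i` are the coefficients of
hyperplanes, algebraic over `E`, with weights `w j i` in `[0, 1]` such that the arrangement is log
canonical (`LcArr`). The multiplicities are bounded at the places over the prime divisors of `X`
which are trivial on `E` (`LcHor`) and at the places over the prime divisors of the product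
(`RamK`). -/
def Fibres (y : Fin (N + 1) → K) (E : IntermediateField ℂ K) {c : ℕ}
    (r s : Fin c → ℕ) (w : ∀ j, Fin (s j) → ℚ) : Prop :=
  (∀ j, 1 ≤ r j ∧ ∀ i, 0 ≤ w j i ∧ w j i ≤ 1) ∧
  ∃ (K' : Type) (_ : Field K') (_ : Algebra ℂ K') (_ : Algebra K K') (_ : IsScalarTower ℂ K K')
    (_ : FiniteDimensional K K') (A : ∀ j, Fin (s j) → Fin (r j + 1) → K')
    (u : (Σ j, Fin (r j)) → K'),
    LcArr (upF K' E) A w ∧ IsTranscendenceBasis (upF K' E) u ∧
    LcHor E A u w {P | IsPrimeDivisor y P} (fun _ => 0) ∧ RamK K (upF K' E) A u w

/-- the sum of the dimensions `r j` for which the sum of the weights is greater than `r j + 1` -/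
def big {c : ℕ} (r s : Fin c → ℕ) (w : ∀ j, Fin (s j) → ℚ) : ℕ :=
  ∑ j, if (r j + 1 : ℚ) < ∑ i, w j i then r j else 0

/-- If the sums of the weights are at least `r j + 1` then the Kodaira dimension and the numerical
dimension (with respect to any effective integral divisor `A`) of `K_X` are `p + big`; otherwise both
are `-∞`. -/
def Abundance (y : Fin (N + 1) → K) (n p : ℕ) {c : ℕ} (r s : Fin c → ℕ)
    (w : ∀ j, Fin (s j) → ℚ) : Prop :=
  ((∀ j, (r j + 1 : ℚ) ≤ ∑ i, w j i) → kodairaDim y n 0 = ((p + big r s w : ℕ) : WithBot ℕ) ∧
    ∀ A, Effective y A → Integral y A → numericalDim y n 0 A = ((p + big r s w : ℕ) : EReal)) ∧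
  ((∃ j, ∑ i, w j i < (r j + 1 : ℚ)) → kodairaDim y n 0 = ⊥ ∧
    ∀ A, Effective y A → numericalDim y n 0 A = ⊥)

end

theorem exists_idx {c : ℕ} (r q : Fin c → ℕ) (w : ∀ j, Fin (q j) → ℚ) :
    ∃ κ : Fin (big r q w) → Σ j, Fin (r j), Function.Injective κ ∧
      ∀ i, (r (κ i).1 + 1 : ℚ) < ∑ i', w (κ i).1 i' := by
  classical
  have h1 : Fintype.card {x : Σ j, Fin (r j) // (r x.1 + 1 : ℚ) < ∑ i, w x.1 i} = big r q w := by
    rw [Fintype.card_subtype, Finset.card_filter, Fintype.sum_sigma]
    refine Finset.sum_congr rfl fun j _ => ?_
    change ∑ _k : Fin (r j), (if (r j + 1 : ℚ) < ∑ i, w j i then 1 else 0) = _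
    rw [Finset.sum_const, Finset.card_univ, Fintype.card_fin, smul_eq_mul, mul_ite, mul_one,
      mul_zero]
  let φ := Fintype.equivFinOfCardEq h1
  exact ⟨fun i => (φ.symm i : Σ j, Fin (r j)), fun a b hab => φ.symm.injective (Subtype.ext hab),
    fun i => (φ.symm i).2⟩

theorem abundance_of {K : Type} [Field K] [Algebra ℂ K] {N p c : ℕ} {y : Fin (N + 1) → K}
    {r s : Fin c → ℕ} {w : ∀ j, Fin (s j) → ℚ} {L : IntermediateField ℂ K}
    (hy : IsCanonicalVariety y (p + ∑ j, r j)) {K' : Type} [Field K'] [Algebra ℂ K']
    [Algebra K K'] [IsScalarTower ℂ K K'] [FiniteDimensional K K']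
    {A : ∀ j, Fin (s j) → Fin (r j + 1) → K'}
    {u : (Σ j, Fin (r j)) → K'} (hw : ∀ j, 1 ≤ r j ∧ ∀ i, 0 ≤ w j i ∧ w j i ≤ 1)
    (hA : LcArr (upF K' L) A w) (hu : IsTranscendenceBasis (upF K' L) u)
    (hC : RamK K (upF K' L) A u w)
    (hK : (∀ j, (r j + 1 : ℚ) ≤ ∑ i, w j i) → KodairaGe (p + ∑ j, r j) {P | IsPrimeDivisor y P}
      (fun _ => 0) (p + big r s w)) : Abundance y (p + ∑ j, r j) p r s w := by
  have h00 : Effective y (0 : Place ℂ K → ℚ) := ⟨fun _ _ => le_rfl, by simp⟩
  obtain ⟨h1, h2⟩ := lc_ab hy.1 hy.2.1 h00 hA.1 hu (fun j => (hw j).1)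
    (fun j i => ((hw j).2 i).1) (fun j i => ((hw j).2 i).2) (hC.cor hy.2.1 hy.2.2 hu)
  refine ⟨fun h => h2 (p + big r s w) h ?_ ?_, h1⟩
  · rw [add_assoc, big, ← Finset.sum_add_distrib]
    congr 1
    refine Finset.sum_congr rfl fun j _ => ?_
    rcases lt_or_eq_of_le (h j) with h3 | h3
    · rw [if_pos h3, if_neg h3.ne', add_zero]
    · rw [if_neg (not_lt.2 h3.symm.le), if_pos h3.symm, zero_add]
  · have h3 := hK h
    have h4 : (fun P => (((0 : Place ℂ K → ℚ) P : ℚ) : ℝ)) = fun _ : Place ℂ K => (0 : ℝ) :=
      funext fun P => Rat.cast_zero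
    rw [h4]
    exact h3

/-- the forms of `W` along the fibres over `Y` -/
theorem forms_of_dominates {K : Type} [Field K] [Algebra ℂ K] {d e : ℕ}
    {E L : IntermediateField ℂ K} [Algebra.EssFiniteType ℂ E] (hLE : L ≤ E)
    (hL : Algebra.trdeg ℂ L = d) (hE : Algebra.trdeg ℂ E = (d + e : ℕ))
    (h : DominatesConstant E L e) : Pool.Agent.X180.Tow.HasForms (d + e)
      {p : Place ℂ E | Divisorial (d + e) p} (fun _ => 0) (Pool.Agent.X180.Tow.dn E L) e e := by
  obtain ⟨E', _, _, _, _, α, M, hα, htop, _, hM, hk, hdom⟩ := h
  have hfin : FiniteDimensional E E' := Pool.Agent.X180.Iso.fin_of_top hα htop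
  have h1 : Algebra.trdeg (Pool.Agent.X180.Tow.dn E L) E = e :=
    Pool.Agent.X180.Iso.trdeg_rel hE (Pool.Agent.X180.Tow.trdeg_dn hLE hL)
  exact Pool.Agent.X180.Iso.fib_forms hE h1 hα htop M hM
    (fun z => Pool.Agent.X180.Iso.alg_acl M (hdom z)) hk _

/-- **Abundance.** Let `X` be a projective variety with canonical singularities, `V` a linear system
on `X` of dimension `n` whose rational map has an image `Y` of dimension `d`, `1 ≤ d ≤ n`, and `φ i`
nonzero members which span `V`, such that `V` is not the direct sum of two nonzero subspaces which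
together contain all the `φ i`. Let `R = n + 2`, or `R = n + 1` if there are `n + 3` different members
`φ i`, and `t > R (n - d + 1) (n - d + 2) / 2` a number for which the condition on the multiplicities
holds at the prime divisors of `X`. Let `E` be the function field of a variety `W` of dimension
`d + e` with dominant rational maps `X ⇢ W ⇢ Y`; let the fibres of `W` over `Y` dominate, after a base
change, a variety of general type of dimension `e` as in `DominatesConstant`, and let the fibres of
`X` over `W` be as in `Fibres`. If `r j + 1 ≤ ∑ i, w j i` for all `j` then `κ(X) = ν(X)` is `d + e`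
plus the sum of the `r j` with `r j + 1 < ∑ i, w j i`, otherwise `κ(X) = ν(X) = -∞`. -/
theorem result {d e n q : ℕ} (hd : 1 ≤ d) (hdn : d ≤ n) (K : Type) [Field K] [Algebra ℂ K]
    (N c : ℕ) (r s : Fin c → ℕ) (y : Fin (N + 1) → K)
    (hy : IsCanonicalVariety y (d + e + ∑ j, r j))
    (V : Submodule ℂ K) (hn : Module.finrank ℂ V = n + 1)
    (hV : Algebra.trdeg ℂ (ImageField V) = d)
    (φ : Fin q → K) (hφ0 : ∀ i, φ i ≠ 0) (hφ : Submodule.span ℂ (Set.range φ) = V)
    (hI : Indecomposable V φ) (R : ℕ) (hR : R = n + 2 ∨ (Different (n + 3) φ ∧ R = n + 1)) (t : ℝ)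
    (ht : (R : ℝ) * (((n : ℝ) - d + 1) * ((n : ℝ) - d + 2)) < 2 * t)
    (hm : Multiplicities y V φ t)
    (E : IntermediateField ℂ K) [Algebra.EssFiniteType ℂ E] (hVE : ImageField V ≤ E)
    (hE : Algebra.trdeg ℂ E = (d + e : ℕ)) (hW : DominatesConstant E (ImageField V) e)
    (w : ∀ j, Fin (s j) → ℚ) (hF : Fibres y E r s w) :
    Abundance y (d + e + ∑ j, r j) (d + e) r s w := by
  obtain ⟨hw, K', _, _, _, _, _, B, u, hB, hu, hH, hC⟩ := hF
  obtain ⟨κ, hκ, hκs⟩ := exists_idx r s w
  refine abundance_of hy hw hB hu hC fun hws => ?_
  have hK : Algebra.trdeg ℂ K = (d + (e + ∑ j, r j) : ℕ) := by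
    rw [hy.2.1, add_assoc]
  have h1 := (Pool.Agent.X180.Tow.sys_tower (c := 1) (X := {P | IsPrimeDivisor y P})
    (δ := fun _ => 0) hd hdn hK hV hφ0 hφ (Pool.Agent.X180.Abn.dcp_one hφ hn)
    (Pool.Agent.X180.Abn.not_dcp hI) (R := R)
    (hR.imp (fun h => by omega) fun h => ⟨rfl, h⟩) ht.le
    (fun _ _ => le_rfl) (fun P hPX _ a ha hb hc => by
      obtain ⟨i, i', h1⟩ := hm P hPX a ha hb hc
      exact ⟨i, i', rfl, by simpa using h1⟩) E hVE hE (forms_of_dominates hVE hV hE hW)
    (lc_low (N := d + (e + ∑ j, r j))
      (Pool.Agent.X180.Iso.trdeg_rel' (d := d + e) hy.2.1 hE) hB finSigmaFinEquiv hu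
      (fun j i => ((hw j).2 i).1) hws hκ hκs (fun P _ => Pool.Agent.X180.Tow.hor_nonneg le_rfl)
      (Pool.Agent.X180.Iso.lcHor_hor hH))).2 ht d rfl
  rw [← add_assoc, ← add_assoc] at h1
  exact h1

end Pool.Agent.Results.MP_fa3f7f_ag.ConstantTimesArrangement
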