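import Pool.Agent.X180.OP.Mix
import Pool.Agent.X180.OP.Prod
import Pool.Agent.X180.OP.MixDefsB
import Pool.Agent.Y191.LcRam

/-!
# Minimal models of towers with orbifold and isotrivial steps over products of projective spaces

For `i < m` let `ℓ i k = 0`, `k < q i`, be hyperplanes in projective `n i`-space, an arbitrary
arrangement which is not reducible. Let `X` be a projective variety with canonical singularities (for
instance smooth) and with `K_X` pseudo-effective, and

  `X ⇢ W_l ⇢ ... ⇢ W_1 ⇢ W_0 = P^{n_1} × ... × P^{n_m}`, `l ≥ 0`,

dominant rational maps. A prime divisor of `X` is *relevant* if it is not in the diminished base locus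
of `K_X`: for each `η₀ > 0` it is not in the base locus of some `m (K_X + η A)`, `0 ≤ η ≤ η₀`, `A` a
given effective divisor. So nothing is supposed about the divisors which are contracted by the minimal
models of `X`. Suppose:

* (the base) if `v i k` are the multiplicities of the hyperplanes at a relevant prime divisor `P` of
  `X`, not all zero, then `∑ i, v i (k i) / d i > 1` for some choice of hyperplanes `k i`, one for each
  factor. Here `d i` is `n i + 2`, or only `n i + 1` if the arrangement in the factor does not consist
  of `n i + 2` hyperplanes in general position;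
* (the steps of the tower) for each `i < l` one of the following:
  * (orbifold) the fibres of `W_{i+1}` over `W_i`, *with the multiplicities of the fibres of `X` over
    `W_{i+1}`*, correspond to moving log canonical arrangements of log general type: there is a variety
    `X'` with a generically finite map `X' ⇢ X` (ramified anywhere) and a rational map over `W_i` of
    `X'` to a relative product of projective spaces `P^{r_1} × ... × P^{r_c}`, `r_j ≥ 1`, whose fibres
    are, up to finite maps, the fibres of `X' ⇢ W_{i+1}`; in each `P^{r_j}` there are any hyperplanes
    `A j k = 0`, in any position, which move with the point of a variety finite over `W_i`, with weights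
    `w j k ≥ 0`, such that the arrangement is log canonical (the sum of the weights of hyperplanes with
    a common point is at most the codimension of their intersection) and `∑ k, w j k > r_j + 1`. If `Q`
    is a place of the function field of `X'` over a relevant prime divisor `P` of `X` which dominates
    `W_i` but not `W_{i+1}`, with ramification index `ε`, and `e j k` are the multiplicities of the
    hyperplanes at `Q`, not all zero, then `ε ≤ ∑ (mx_j - ∑ w j k e j k)`, where `mx_j` is the greatest
    sum of `r_j + 1` of the `e j k` whose hyperplanes have no common point (`ε ≤ 1`, if all `e j k` are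
    zero);
  * (isotrivial) after a generically finite base change `W_i' → W_i` the variety
    `W_{i+1} ×_{W_i} W_i'` has a generically finite rational map to `W_i' × V_i` over `W_i'`, where
    `V_i` is a smooth projective variety of general type of dimension `dim W_{i+1} - dim W_i`;
* (the fibres of `X` over `W_l`, of any log Kodaira dimension) there is a correspondence `X'` as above
  between `X` and a relative product `P^{r_1} × ... × P^{r_c}` over `W_l`, with log canonical moving
  hyperplane arrangements with weights in `[0, 1]` (with any sum) and the same condition at the relevant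
  prime divisors of `X` which dominate `W_l`; and if `Q` is a place of the function field of `X'` over a
  prime divisor of `P^{r_1} × ... × P^{r_c}` over `W_l`, with ramification index `ρ`, and with
  ramification index `ε` over `X`, then `ρ - ε ≤ ∑ w j k e j k`. For instance the fibres may be products
  of elliptic curves, or K3 surfaces which are double planes over six lines, with any variation.

Then `∑ k, w j k ≥ r_j + 1` for all `j` (for the fibres over `W_l`), and

  `κ(X) = ν(X) = dim W_l + λ`,

where `λ` is the sum of the `r_j` with `∑ k, w j k > r_j + 1`.

Then `X` has a good minimal model by `κ(X) = ν(X)` (Lai, Gongyo and Lehmann), also with terminal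
singularities (for a resolution of `X`), which is statement (a) of the question. (If `K_X` is not
pseudo-effective then (b) is known.)

Notation: `X` is given by the homogeneous coordinates `y` of its generic point, with values in the
function field `K`; prime divisors are places `P` of `K`, `P.ord` is the order along `P`. `E i` is the
function field of `W_i`. The dominant rational map to the product is given by homogeneous coordinates
`x i j` such that the affine coordinates `x i (j + 1) / x i 0` are algebraically independent.
`kodairaDim` and `numericalDim` are the literal definitions by means of the dimensions of the spaces of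
sections of `m K_X` and of `m K_X + A`. Definitions: `Pool/Agent/X180/OP/Defs`, `AbDefs`, `MixDefsB`,
`ProdDefs`; `Form`, `Reducible`: `Pool/Agent/W602/Cov/Defs`.

Proof: for an orbifold step `Z' → Z` of the tower the products of determinants of logarithmic
derivatives of the linear forms are forms of degree `dim Z' - dim Z` along the fibres; their norms are
estimated at the relevant prime divisors of `X` (`Pool.Agent.X180.Orb`); for an isotrivial step the
norms of the pluricanonical forms of `V_i` are used. They are multiplied with adapted regular vector
fields, and with the forms of the base: for an irreducible arrangement there are weights on the bases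
of the matroid such that the products of the forms `det (d log)` have a positive slack at all flats
(`Pool.Agent.X180.Multi`). The products are regular at the relevant prime divisors, and as `K_X` is
pseudo-effective, their products with sections of multiples of `K_X + η A` which vanish to high order
along the other ones are used. For the upper bound, sections of `m K_X + A` are pulled back to `X'`;
their traces are polynomials of bounded degree in the coordinates of the factors with
`∑ k, w j k = r_j + 1`.
-/

set_option autoImplicit false

open FF Module Pool.Agent.W602.Cov Pool.Agent.W602.GT Pool.Agent.Y172 Pool.Agent.Y191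
open Pool.Agent.X180.OP hiding IsMixedTower IsotrivialFibres Fibres
open Pool.Agent.X180.OM

namespace Pool.Agent.Results.MP_fa3f7f_ag.MixedTowersOverProducts

/-- There is a finite extension `K'` of `K`, and the `u ⟨j, k⟩` are the affine coordinates of a
generically finite map, over the variety with the function field `L`, of a variety with the function
field `K'` to a product of projective spaces of dimensions `r j ≥ 1`; `A j i` are the coefficients of
hyperplanes, algebraic over `L`, with weights `w j i` in `[0, 1]` such that the arrangement is log
canonical (`LcArr`). The multiplicities are bounded at the places over the prime divisors of `X` in `S`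
which are trivial on `L` (`LcHor`) and at the places over the prime divisors of the product
(`RamK`). -/
def Fibres {K : Type} [Field K] [Algebra ℂ K] (S : Set (Place ℂ K)) (L : IntermediateField ℂ K)
    {c : ℕ} (r s : Fin c → ℕ) (w : ∀ j, Fin (s j) → ℚ) : Prop :=
  (∀ j, 1 ≤ r j ∧ ∀ i, 0 ≤ w j i ∧ w j i ≤ 1) ∧
  ∃ (K' : Type) (_ : Field K') (_ : Algebra ℂ K') (_ : Algebra K K') (_ : IsScalarTower ℂ K K')
    (_ : FiniteDimensional K K') (A : ∀ j, Fin (s j) → Fin (r j + 1) → K')
    (u : (Σ j, Fin (r j)) → K'),
    LcArr (upF K' L) A w ∧ IsTranscendenceBasis (upF K' L) u ∧
    LcHor L A u w S (fun _ => 0) ∧ RamK K (upF K' L) A u w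

/-- **Abundance.** Let `ℓ i` be arbitrary arrangements of hyperplanes, which are not reducible, in
projective spaces of dimensions `n i ≥ 1`, `d i` the bounds. Let `X` be a projective variety with
canonical singularities, `A` an effective `ℚ`-divisor such that `K_X` is pseudo-effective (tested with `A`), and
`X ⇢ W_l ⇢ ... ⇢ W_0` a mixed tower over the product `W_0` of the projective spaces, given by
homogeneous coordinates `x i`, whose steps are of (log) general type. Suppose that at each relevant
prime divisor of `X` over one of the hyperplanes `1 < ∑ i, v i (k i) / d i` for the multiplicities `v`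
and some `k`, and let the fibres of `X` over `W_l` be as in `Fibres`. Then `r j + 1 ≤ ∑ i, w j i` for
all `j`, and the Kodaira dimension and the numerical dimension (with respect to any effective integral
divisor) of `K_X` are `dim W_l` plus the sum of the `r j` with `r j + 1 < ∑ i, w j i`. -/
theorem result {m : ℕ} (n q : Fin m → ℕ) (hn : ∀ i, 1 ≤ n i)
    (ℓ : ∀ i, Fin (q i) → Form (n i)) (hℓ : ∀ i k, ℓ i k ≠ 0) (hr : ∀ i, ¬ Reducible (ℓ i))
    (d : Fin m → ℕ) (hd : ∀ i, Bound (ℓ i) (d i)) (K : Type) [Field K] [Algebra ℂ K]
    (N l c : ℕ) (E : Fin (l + 1) → IntermediateField ℂ K) (D : Fin (l + 1) → ℕ) (e : Fin l → ℕ)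
    (r s : Fin c → ℕ) (y : Fin (N + 1) → K) (A : Place ℂ K → ℚ) (hA : Effective y A)
    (hy : NormalModel y) (hcan : Canonical y (D (Fin.last l) + ∑ j, r j))
    (hdim : Algebra.trdeg ℂ K = (D (Fin.last l) + ∑ j, r j : ℕ))
    (hps : PseudoEffective y (D (Fin.last l) + ∑ j, r j) 0 A) (x : ∀ i, Fin (n i + 1) → K)
    (hx0 : ∀ i, x i 0 ≠ 0) (hind : AlgebraicIndependent ℂ (affine x)) (hE0 : E 0 = BaseField x)
    (hm : Multiplicities (Relevant y (D (Fin.last l) + ∑ j, r j) 0 0 A) 0 ℓ x d (· < ·))
    (hT : IsMixedTower (Relevant y (D (Fin.last l) + ∑ j, r j) 0 0 A) (fun _ => 0) E D e e)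
    (w : ∀ j, Fin (s j) → ℚ)
    (hF : Fibres (Relevant y (D (Fin.last l) + ∑ j, r j) 0 0 A) (E (Fin.last l)) r s w) :
    (∀ j, (r j + 1 : ℚ) ≤ ∑ i, w j i) ∧
    kodairaDim y (D (Fin.last l) + ∑ j, r j) 0 =
      ((D (Fin.last l) + big r s w : ℕ) : WithBot ℕ) ∧
    ∀ A', Effective y A' → Integral y A' →
      numericalDim y (D (Fin.last l) + ∑ j, r j) 0 A' =
        ((D (Fin.last l) + big r s w : ℕ) : EReal) := by
  have h00 : Effective y (0 : Place ℂ K → ℚ) := ⟨fun _ _ => le_rfl, by simp⟩
  have hp : IsPair y (D (Fin.last l) + ∑ j, r j) 0 := ⟨hy, hdim, h00⟩
  have hn' : D (Fin.last l) + ∑ j, r j = D 0 + (∑ i, e i + ∑ j, r j) := by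
    rw [Pool.Agent.X180.TP.dims fun i => (hT.2 i).2.1, add_assoc]
  have htr : D 0 = ∑ i, n i := by
    have h3 := hT.1 0
    rw [hE0, trdeg_base hind] at h3
    exact_mod_cast h3.symm
  have hz : (fun P => (((0 : Place ℂ K → ℚ) P : ℚ) : ℝ)) = fun _ : Place ℂ K => (0 : ℝ) :=
    funext fun P => Rat.cast_zero
  have hF' : Pool.Agent.X180.OP.Fibres y (D (Fin.last l) + ∑ j, r j) 0
      (Relevant y (D (Fin.last l) + ∑ j, r j) 0 0 A) (E (Fin.last l)) r s w := by
    obtain ⟨hw, K', _, _, _, _, _, B, u, hB, hu, hH, hC⟩ := hF
    exact ⟨hw, K', _, _, _, _, inferInstance, B, u, hB, hu, by rw [hz]; exact hH,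
      hC.cor hdim hcan hu⟩
  have h1 : Abundance y (D (Fin.last l) + ∑ j, r j) 0 0 (D (Fin.last l)) r s w := by
    refine ab_mix (e := e) (lam := e) hp h00 hA (by rw [sub_zero]; exact hps)
      (by rw [hz]; exact hT) (fun _ => rfl) hF' fun lam' h0 => ?_
    rw [hE0, htr] at h0
    rw [htr]
    exact (prod_base hn hℓ hr hd hx0 hind (by rw [← htr, ← hn']; exact hdim)
      (fun P hP => le_rfl) (by simp) h0).2 hm
  exact ⟨h1.1, h1.2 0 fun P _ => ⟨fun _ => rfl, fun h => absurd rfl h⟩⟩

end Pool.Agent.Results.MP_fa3f7f_ag.MixedTowersOverProducts
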