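import Pool.Agent.X180.OT.Sys

/-!
# Good minimal models for towers of orbifold fibrations over highly ramified linear systems

Let `X` be a projective variety with canonical singularities, and

  `X ⇢ W_l ⇢ ... ⇢ W_1 ⇢ W_0`, `l ≥ 0`,

dominant rational maps, where `W_0`, of dimension `D 0 ≥ 1`, is the image of the rational map of a
linear system `|V|` on `X`, without fixed components, of dimension `n`. Suppose:

* (the base) `φ i` (`i < q`) define members of `|V|` which span `V`, in arbitrary position, such that
  `V` is not a direct sum of two nonzero subspaces which together contain all the `φ i`; and at every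
  prime divisor `P` of `X` which is a component of some of the members the multiplicities of `P` in
  two of them differ by at least `t`, where `t > R (n - D 0 + 1) (n - D 0 + 2) / 2`, `R = n + 2`, or
  `R = n + 1` if there are `n + 3` different members;
* (the steps of the tower) for each `i < l` the fibres of `W_{i+1}` over `W_i`, *with the
  multiplicities of the fibres of `X` over `W_{i+1}`*, correspond to moving log canonical
  arrangements: there is a variety `X'` with a generically finite map `X' ⇢ X` (ramified anywhere)
  and a rational map over `W_i` of `X'` to a relative product of projective spaces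
  `P^{r_1} × ... × P^{r_c}`, `r_j ≥ 1`, whose fibres are, up to finite maps, the fibres of
  `X' ⇢ W_{i+1}`; in each `P^{r_j}` there are any hyperplanes `A j k = 0`, in any position, which move
  with the point of a variety finite over `W_i`, with weights `w j k ≥ 0`, such that the arrangement
  is log canonical (the sum of the weights of hyperplanes with a common point is at most the
  codimension of their intersection) and `∑ k, w j k ≥ r_j + 1`. If `Q` is a place of the function
  field of `X'` over a prime divisor `P` of `X` which dominates `W_i` but not `W_{i+1}`, with
  ramification index `ε`, and `e j k` are the multiplicities of the hyperplanes at `Q`, not all zero,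
  then `ε ≤ ∑ (mx_j - ∑ w j k e j k)`, where `mx_j` is the greatest sum of `r_j + 1` of the `e j k`
  whose hyperplanes have no common point (`ε ≤ 1`, if all `e j k` are zero). For instance, if `W_{i+1}`
  is a projective bundle over `W_i`, and the hyperplanes are in general position, this means that the
  fibres of `X` over the hyperplane `A j k = 0` have only components of multiplicity at least
  `1 / (1 - w j k)`: the steps `W_{i+1} → W_i` may be projective bundles, of negative Kodaira
  dimension, and only the multiple fibres of `X → W_{i+1}` over divisors which dominate `W_i`
  contribute. Nothing is supposed about the prime divisors which are exceptional over `X`;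
* (the fibres of `X` over `W_l`, of any log Kodaira dimension) there is a correspondence `X'` as above
  between `X` and a relative product `P^{r_1} × ... × P^{r_c}` over `W_l`, with log canonical moving
  hyperplane arrangements with weights in `[0, 1]` and the same condition at the prime divisors of `X`
  which dominate `W_l`; and if `Q` is a place of the function field of `X'` over a prime divisor of
  `P^{r_1} × ... × P^{r_c}` over `W_l`, with ramification index `ρ`, and with ramification index `ε`
  over `X`, then `ρ - ε ≤ ∑ w j k e j k`.

Let `λ_i` be the sum of the `r_j` with `∑ k, w j k > r_j + 1` of the step `W_{i+1} ⇢ W_i`, and `λ` the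
same sum for the fibres of `X` over `W_l`. Then:

* if all steps are of log general type (`λ_i = dim W_{i+1} - dim W_i`) then `κ(X) = ν(X)`: `K_X` is
  pseudo-effective if and only if `∑ k, w j k ≥ r_j + 1` for all `j` (for the fibres over `W_l`); then
  `κ(X) = ν(X) = dim W_l + λ`, otherwise `κ(X) = ν(X) = -∞`. By the known equivalence of `κ = ν` with
  the existence of good minimal models `X` is birational to a minimal variety whose canonical divisor
  is semiample in the first case, and to a Mori fibre space in the second case;
* for arbitrary steps `κ(X) ≥ dim W_0 + ∑ λ_i + λ` if `K_X` is pseudo-effective (and `K_X` is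
  pseudo-effective under the same condition): Iitaka's subadditivity for all the steps and their
  orbifold structures. If only `t ≥ R (n - D 0 + 1) (n - D 0 + 2) / 2` then still
  `κ(X) ≥ ∑ λ_i + λ ≥ 0`.

For instance `X → W_l` may be any family of products of elliptic curves (with any variation), with
multiple fibres over divisors which dominate `W_{l-1}`, and so on.

The language and the definitions of `Pool.Agent.Y172` are used: `X` is given by the homogeneous
coordinates `y` of its generic point, with values in the function field `K` of `X`; the prime divisors
of `X` are places `P` of `K`, `P.ord` is the order along `P`; `kodairaDim` and `numericalDim` are the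
literal definitions of the Kodaira and of the numerical dimension by means of the dimensions of the
spaces of sections of `m K_X` and of `m K_X + A`. The varieties `W_i` are given by their function
fields `E i`, subfields of `K`. Definitions: `Pool/Agent/X180/OT/Defs`, `Pool/Agent/X180/TP/Defs`.

Proof: for a step `Z' → Z` of the tower the products of determinants of logarithmic derivatives of the
linear forms are forms along the fibres of `X' → Z`, of degree `dim Z' - dim Z`; their coefficients
with respect to a basis of the vector fields of `Z'` over `Z` are algebraic over the function field of
`Z'`, and their norms are estimated at the prime divisors of `X`: at a prime divisor which dominates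
`Z` and not `Z'` the vector fields which are regular on `X` are logarithmically dependent modulo the
divisor, because the residue field of `Z'` has smaller transcendence degree over `Z`
(`Pool.Agent.X180.Orb`). The forms of the steps are multiplied with adapted regular vector fields, and
with generalised Wronskians of `V` (`Pool.Agent.TH585.SV.lin_fib`). For the upper bound, the sections
of `m K_X + A` are pulled back to `X'`; their traces are polynomials of bounded degree in the
coordinates of the factors with `∑ k, w j k = r_j + 1` (`Pool.Agent.Y191.lc_ab`).
-/

set_option autoImplicit false

open FF Module Pool.Agent.W602.GT Pool.Agent.Y172 Pool.Agent.Y191 Pool.Agent.X180.OT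
open Pool.Agent.X180.TP (IsCanonicalVariety Fibres big Abundance Nonvanishing)

namespace Pool.Agent.Results.MP_fa3f7f_ag.OrbifoldTowers

/-- **Orbifold towers.** Let `X` be a projective variety with canonical singularities, `V` a linear
system on `X` of dimension `n` whose rational map has an image `W_0` of dimension `D 0`,
`1 ≤ D 0 ≤ n`, and `φ i` nonzero members which span `V`, such that `V` is not the direct sum of two
nonzero subspaces which together contain all the `φ i`. Let `R = n + 2`, or `R = n + 1` if there are
`n + 3` different members `φ i`, and `t ≥ R (n - D 0 + 1) (n - D 0 + 2) / 2` a number for which the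
condition on the multiplicities holds at the prime divisors of `X`. Let `X ⇢ W_l ⇢ ... ⇢ W_0` be an
orbifold tower, of which the steps have log Kodaira dimensions `lam i`, and let the fibres of `X` over
`W_l` be as in `Fibres`. Then `κ(X) ≥ ∑ i, lam i + big ≥ 0` if `r j + 1 ≤ ∑ i, w j i` for all `j`, and
`κ(X) = ν(X) = -∞` otherwise. If `t > R (n - D 0 + 1) (n - D 0 + 2) / 2` then
`κ(X) ≥ D 0 + ∑ i, lam i + big` in the first case; and then `κ(X) = ν(X) = D l + big`, if the steps
are of log general type (`lam i` is the dimension `e i` of `W_{i+1}` over `W_i`). -/
theorem result {n q : ℕ} (K : Type) [Field K] [Algebra ℂ K] (N l c : ℕ)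
    (E : Fin (l + 1) → IntermediateField ℂ K) (D : Fin (l + 1) → ℕ) (e lam : Fin l → ℕ)
    (hd : 1 ≤ D 0) (hdn : D 0 ≤ n) (r s : Fin c → ℕ) (y : Fin (N + 1) → K)
    (hy : IsCanonicalVariety y (D (Fin.last l) + ∑ j, r j))
    (V : Submodule ℂ K) (hn : Module.finrank ℂ V = n + 1) (φ : Fin q → K) (hφ0 : ∀ i, φ i ≠ 0)
    (hφ : Submodule.span ℂ (Set.range φ) = V) (hI : Indecomposable V φ) (R : ℕ)
    (hR : R = n + 2 ∨ (Different (n + 3) φ ∧ R = n + 1)) (t : ℝ)
    (ht : (R : ℝ) * (((n : ℝ) - D 0 + 1) * ((n : ℝ) - D 0 + 2)) ≤ 2 * t)
    (hm : SystemMultiplicities y V φ t) (hE0 : E 0 = ImageField V)
    (hT : IsOrbifoldTower {P | IsPrimeDivisor y P} (fun _ => 0) E D e lam)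
    (w : ∀ j, Fin (s j) → ℚ) (hF : Fibres y (E (Fin.last l)) r s w) :
    Nonvanishing y (D (Fin.last l) + ∑ j, r j) (∑ i, lam i + big r s w) r s w ∧
    ((R : ℝ) * (((n : ℝ) - D 0 + 1) * ((n : ℝ) - D 0 + 2)) < 2 * t →
      Nonvanishing y (D (Fin.last l) + ∑ j, r j) (D 0 + ∑ i, lam i + big r s w) r s w ∧
      ((∀ i, lam i = e i) →
        Abundance y (D (Fin.last l) + ∑ j, r j) (D (Fin.last l)) r s w)) :=
  sys_main hd hdn hy hn hφ0 hφ hI hR ht hm hE0 hT hF

end Pool.Agent.Results.MP_fa3f7f_ag.OrbifoldTowers
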