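import Pool.Agent.X140.AB.SysC

/-!
# Good minimal models for families of maximal variation over linear systems which are ramified only as
much as in the Calabi–Yau case

Let `X` be a projective manifold and `|V|` a linear system on `X` of dimension `N` whose rational map
`X ⇢ ℙᴺ` has an image `Y` of dimension `d`, `1 ≤ d ≤ N`. Let `D i` (`i < q`) be members of `|V|` in
arbitrary position, `c` the greatest number of subsystems of which `V` is the direct sum and which
together contain all the `D i`, and suppose that at every prime divisor `P` over `X` which is a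
component of some `D i` the multiplicities of `P` in two members `D i`, `D i'` of the same subsystem
differ by at least `s`, where `2 s ≥ R (N - d + 1) (N - d + 2)`, `R = N + 3 - c` (`R = N + 1` if `c = 1`
and there are at least `N + 3` different `D i`). Equality is allowed. For `d = N = 1`, `q = 4`, `s = 2`
this is the orbifold base `(ℙ¹; 2, 2, 2, 2)` of Kodaira dimension zero; so the base does not
contribute to the Kodaira dimension of `X`, and for a constant family of fibres over a base of this
kind `κ(X) = κ(F)` is possible. Here it is shown that the variation of the fibres contributes.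

Let `X → W` be the fibre space of `X ⇢ Y` and `F` its geometric generic fibre, a variety over the
algebraic closure `Λ` of the function field of `W`. Suppose that `F` has a generically finite rational
map, which may be ramified anywhere, to `F₀ × Z`, where `F₀` is any variety which is defined over `ℂ`
and `Z` is an abelian cover

  `w k ^ μ k = c k * ∏ j, ∏ i, ℓ j i (x j) ^ E k j i`, `k < p`,

of a product of projective spaces over `Λ` of dimensions `g j`, branched along `n j ≥ 2 g j + 2`
hyperplanes `ℓ j i` in general position in the `j`-th space, for every `j`: for instance products of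
elliptic, hyperelliptic and superelliptic curves, the K3 surfaces `w ^ 2 = ℓ 1 ⋯ ℓ 6` (so the Kummer
surfaces of the Jacobians of the curves of genus two), the Calabi–Yau double covers of `ℙᵍ` branched
along `2 g + 2` hyperplanes. Let `u` be the sum of the `g j` with `n j ≥ 2 g j + 3`, or with `g j = 1`
and a point of ramification index at least three. Let `v` be the number of algebraically independent
moduli: suppose that `v` of the cross ratios of the hyperplanes, which are rational functions of the
maximal minors of their coefficients, are algebraically independent over `ℂ`. Then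

  `κ(X) ≥ κ(F₀) + u + v` and `ν(X) ≤ d + ν(F)`.

So if the variation is maximal, `v = d`, and `ν(F) ≤ κ(F₀) + u`, then `κ(X) = ν(X)`, and by the known
equivalence of `κ = ν ≥ 0` with the existence of a good minimal model `X` has a minimal model, on
which the canonical divisor is semiample, although the base `Y` with its ramification may have Kodaira
dimension zero. For instance `X` may have any dimension and fibres which are generically finite over
`F₀ × Z` and have numerical dimension zero.

Notation: `K` and `M` are the function fields of `X` and `F₀`, `L` that of `W`; prime divisors are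
places (`Place`, `Divisorial`), `P.ord` is the order along `P`. `KodTr k K n h`: the Kodaira dimension
is at least `h`, that is, there are `h + 1` pluricanonical forms of which the `h` ratios are
algebraically independent; `NumLe k K n (fun _ => False) h`: the numerical dimension is at most `h`,
that is `h⁰ (m K + A) ≤ C m ^ h` for each divisor `A` (`Pool/Agent/W619`). `LinearForm`,
`GeneralPosition`, `CrossRatios`, `AbelianCover`, `Dominates`, `High` and `HighDimension` are defined
in `Pool.Agent.X140.AB.ADefs`.

Proof: for `g + 1` of the hyperplanes of a space of dimension `g` the form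
`det (ℓ i₀, ..., ℓ i_g) d x₁ ∧ ... ∧ d x_g / (ℓ i₀ ⋯ ℓ i_g)` is the wedge product of the logarithmic
differentials of the quotients of the linear forms. The products of these forms over all choices of
the hyperplanes in which every hyperplane occurs equally often are regular on the regular vector
fields along the fibres at all places, in spite of the zeros and poles of the coefficients, and
different choices give forms whose ratios are the cross ratios. The products of these forms and of
pluricanonical forms of `F₀` are forms along the fibres of a base change `X' → X`; the coefficients of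
their norms are forms along the fibres of `X` whose ratios include transcendental functions of the
cross ratios. They are multiplied with generalised Wronskians of `V`.
-/

set_option autoImplicit false

open FF Pool.Agent.W619.TW Pool.Agent.W619.Y Pool.Agent.X140.AB
open Pool.Agent.W602.GT (Divisorial)

namespace Pool.Agent.Results.MP_fa3f7f_ag.VariationOverLinearSystems

section

variable {K : Type} [Field K] [Algebra ℂ K]

/-- The function field of the image of the rational map which is given by the linear system `V`: the
field generated by the quotients of the members. -/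
noncomputable def ImageField (V : Submodule ℂ K) : IntermediateField ℂ K :=
  IntermediateField.adjoin ℂ {y : K | ∃ f ∈ V, ∃ g ∈ V, y = f / g}

/-- The linear system `V`, of dimension `N`, is the direct sum of `c` nonzero subsystems which contain
the `φ i`: it has a basis of `N + 1` members which are divided into `c` nonempty groups such that
`φ i` is a linear combination of the members of the group `γ i`. -/
def Decomposition (N : ℕ) {q c : ℕ} (V : Submodule ℂ K) (φ : Fin q → K) (γ : Fin q → Fin c) : Prop :=
  ∃ (x : Fin (N + 1) → K) (g : Fin (N + 1) → Fin c), LinearIndependent ℂ x ∧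
    Submodule.span ℂ (Set.range x) = V ∧ Function.Surjective g ∧
    ∀ i, φ i ∈ Submodule.span ℂ (x '' {a | g a = γ i})

/-- There are `r` members `φ i` of which no two are proportional. -/
def Different (r : ℕ) {q : ℕ} (φ : Fin q → K) : Prop :=
  ∃ τ : Fin r → Fin q, ∀ i j, i ≠ j → ∀ t : ℂ, φ (τ i) ≠ t • φ (τ j)

/-- The condition on the multiplicities, on a variety `X` of dimension `w`: if the prime divisor `P`
over `X` is a component of one of the divisors `D i` (the order of `φ i` at `P` is not the minimum `a`
of the orders of the members of `V`), then for some members `D i`, `D i'` of the same subsystem the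
difference of the multiplicities of `P` is at least `s`. -/
def Multiplicities (w : ℕ) {q c : ℕ} (V : Submodule ℂ K) (φ : Fin q → K) (γ : Fin q → Fin c)
    (s : ℝ) : Prop :=
  ∀ P : Place ℂ K, Divisorial w P → ∀ a : ℤ, (∀ f ∈ V, f = 0 ∨ a ≤ P.ord f) →
    (∃ f ∈ V, f ≠ 0 ∧ P.ord f = a) → (∃ i, P.ord (φ i) ≠ a) →
    ∃ i i', γ i' = γ i ∧ s ≤ ((P.ord (φ i) - P.ord (φ i') : ℤ) : ℝ)

end

/-- the Kodaira dimension of a point -/
theorem kodTr_zero {M : Type} [Field M] [Algebra ℂ M] : KodTr ℂ M 0 0 := by
  refine ⟨1, le_rfl, fun _ _ => 1, fun l => ⟨fun A D => ?_, fun v _ _ D _ => ?_,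
    fun v _ h => absurd h id⟩, fun i => i.elim0, fun _ => one_ne_zero, ?_⟩
  · rw [Matrix.det_isEmpty, one_pow, one_mul]
  · exact Or.inr ⟨1, Finset.mem_singleton_self _, one_ne_zero, by simp [v.ord_one]⟩
  · rw [algebraicIndependent_empty_type_iff]
    exact (algebraMap ℂ M).injective

/-- Let `K` be the function field of a projective variety `X` of dimension `d + e + t`, where `e` is
the sum of the `g j` and `e + t ≥ 1`, `V` a linear system of dimension `N` on `X` whose rational map
has an image `Y` of dimension `d`, `1 ≤ d ≤ N`; `φ i` nonzero members which span `V`, divided by `γ`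
into `c` subsystems, where `c` is maximal; `R = N + 3 - c`, or `R = N + 1` if `c = 1` and there are
`N + 3` different members, and `s` a number with `2 s ≥ R (N - d + 1) (N - d + 2)` for which the
condition on the multiplicities holds. Let `L` be the algebraic closure of the function field of `Y`
in `K` (the function field of `W`), `Λ` an algebraic closure of `L`, and `F` the function field of the
geometric generic fibre of `X → W`, which is generated by `K` and `Λ`. Let `M` be the function field
of a variety `F₀` over `ℂ` of dimension `t`, let the geometric generic fibre have a generically finite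
rational map to `F₀ × Z`, where `Z` is an abelian cover of the product of projective spaces of the
dimensions `g j`, and let the cross ratios `z i`, `i < v`, of the hyperplanes be algebraically
independent over `ℂ`.

Then `κ(X) ≥ h + u + v` if `κ(F₀) ≥ h`, `u = HighDimension μ E`; if `t = 0` then `κ(X) ≥ u + v`. If
`ν(F) ≤ h` then `ν(X) ≤ d + h`. -/
theorem result (d r t N q b v : ℕ) (hd : 1 ≤ d) (hdN : d ≤ N) {g n : Fin r → ℕ}
    (he : 1 ≤ (∑ j, g j) + t) {K : Type} [Field K]
    [Algebra ℂ K] [Algebra.EssFiniteType ℂ K]
    (hK : Algebra.trdeg ℂ K = (d + ((∑ j, g j) + t) : ℕ))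
    -- the linear system
    (V : Submodule ℂ K) (hV : Algebra.trdeg ℂ (ImageField V) = d) (φ : Fin q → K)
    (hφ0 : ∀ i, φ i ≠ 0) (hφ : Submodule.span ℂ (Set.range φ) = V) (γ : Fin q → Fin b)
    (hγ : Decomposition N V φ γ) (hb : ∀ γ' : Fin q → Fin (b + 1), ¬ Decomposition N V φ γ')
    (R : ℕ) (hR : R + b = N + 3 ∨ (b = 1 ∧ Different (N + 3) φ ∧ R = N + 1)) (s : ℝ)
    (hs : (R : ℝ) * (((N : ℝ) - d + 1) * ((N : ℝ) - d + 2)) ≤ 2 * s)
    (hm : Multiplicities (d + ((∑ j, g j) + t)) V φ γ s)
    -- the fibre space
    (L : IntermediateField ℂ K) [Algebra.EssFiniteType ℂ L]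
    (hL : ∀ x : K, x ∈ L ↔ IsAlgebraic (ImageField V) x)
    -- the geometric generic fibre
    {Λ F : Type} [Field Λ] [Field F] [Algebra L Λ] [IsAlgClosure L Λ] [Algebra Λ F] [Algebra K F]
    [IsScalarTower L Λ F] [Algebra ℂ Λ] [Algebra ℂ F] [IsScalarTower ℂ L Λ] [IsScalarTower ℂ Λ F]
    [IsScalarTower ℂ K F] (hF : IntermediateField.adjoin Λ (Set.range (algebraMap K F)) = ⊤)
    -- the constant variety and the abelian cover
    (M : IntermediateField ℂ F) [Algebra.EssFiniteType ℂ M] (hM : Algebra.trdeg ℂ M = t) {p : ℕ}
    (a : ∀ j, Fin (n j) → Fin (g j + 1) → Λ) (μ : Fin p → ℕ) (E : Fin p → ∀ j, Fin (n j) → ℕ)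
    (c : Fin p → Λ) (x : ∀ j, Fin (g j) → F) (w : Fin p → F) (hdom : Dominates M a μ E c x w)
    -- the variation
    (z : Fin v → Λ) (hz : ∀ i, ∃ j, z i ∈ CrossRatios (a j)) (hzi : AlgebraicIndependent ℂ z)
    (h : ℕ) :
    (KodTr ℂ M t h →
      KodTr ℂ K (d + ((∑ j, g j) + t)) (h + HighDimension (g := g) μ E + v)) ∧
    (t = 0 → KodTr ℂ K (d + ((∑ j, g j) + t)) (HighDimension (g := g) μ E + v)) ∧
    (NumLe Λ F ((∑ j, g j) + t) (fun _ => False) h →
      NumLe ℂ K (d + ((∑ j, g j) + t)) (fun _ => False) (d + h)) := by
  have hVL : ImageField V ≤ L := fun x hx => (hL x).2 (isAlgebraic_algebraMap (⟨x, hx⟩ :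
    ImageField V))
  have hLalg : ∀ x ∈ L, IsAlgebraic (ImageField V) x := fun x hx => (hL x).1 hx
  have hLA : L = Pool.Agent.X180.Iso.Acl (ImageField V) := by
    ext x
    rw [hL, Pool.Agent.X180.Iso.mem_acl]
  have hΛalg : Algebra.IsAlgebraic L Λ := IsAlgClosure.isAlgebraic
  have hLK : ∀ x : K, IsIntegral L x → ∃ y : L, algebraMap L K y = x := by
    intro x hx
    have h1 : IsAlgebraic (Pool.Agent.X180.Iso.Acl (ImageField V)) x := by
      rw [← hLA]
      exact hx.isAlgebraic
    have h2 : x ∈ L := by
      rw [hLA]
      exact Pool.Agent.X180.Iso.acl_acl h1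
    exact ⟨⟨x, h2⟩, rfl⟩
  have htrL : Algebra.trdeg ℂ L = d := by
    rw [← hV]
    exact Pool.Agent.X180.Abn.trdeg_of_alg hVL hLalg
  have hRc : (R + b = N + 3 ∨ (b = 1 ∧ (∃ τ : Fin (N + 3) → Fin q, ∀ i j, i ≠ j → ∀ t : ℂ,
      φ (τ i) ≠ t • φ (τ j)) ∧ R = N + 1)) := hR
  have hzF : AlgebraicIndependent ℂ (fun i => algebraMap Λ F (z i)) :=
    hzi.map' (f := IsScalarTower.toAlgHom ℂ Λ F) (algebraMap Λ F).injective
  have key := fun (l : ℕ) (hk : KodTr ℂ M t l) => sys_kodC hd hdN hK hV hφ0 hφ
      (γ := γ) hγ hb hRc hs hm
      (geo_ab hK (Pool.Agent.X180.Iso.trdeg_rel hK hV) hLalg hF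
        (fun z => ((hΛalg.isAlgebraic z).algHom (IsScalarTower.toAlgHom L Λ F))) M hM hdom
        (Pool.Agent.X180.Abn.kodGe_of_kodTr hk) hz hzF _).2
  refine ⟨fun hk => key h hk, fun ht => ?_, fun hnum => ?_⟩
  · have hk : KodTr ℂ M t 0 := by
      rw [ht]
      exact kodTr_zero
    have h1 := key 0 hk
    rwa [zero_add] at h1
  · obtain ⟨e, he⟩ : ∃ e, (∑ j, g j) + t = e + 1 := ⟨(∑ j, g j) + t - 1, by omega⟩
    rw [he] at hnum hK ⊢
    exact Pool.Agent.Y174.easy_add ‹Algebra.EssFiniteType ℂ L› ‹Algebra.EssFiniteType ℂ K› hF hLK
      htrL hK hnum

end Pool.Agent.Results.MP_fa3f7f_ag.VariationOverLinearSystems
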